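import Pool.Agent.H174.GP.StA
import Pool.Agent.H174.GP.StP
import Pool.Agent.H174.GP.StC
import Pool.Agent.H174.GP.StB

/-!
`S_aalaw` of project GP (helper174): `aa` is a probability.
-/

set_option autoImplicit false

open MeasureTheory ProbabilityTheory Finset

namespace Pool.Agent.H922.GP174

open Pool.Agent.H174.GP

lemma meas_abs (t : ℝ) : MeasurableSet {x : ℝ | t ≤ |x|} :=
  measurableSet_le measurable_const continuous_abs.measurable

/-- the integer part of `|x| / b` is geometric -/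
lemma geom (h1 : S_L3) (b : ℝ) (hb : 0 < b) (k : ℕ) :
    lap.real {x : ℝ | ⌊|x| / b⌋₊ = k} = (1 - Real.exp (-b)) * Real.exp (-(b * k)) := by
  have hset : {x : ℝ | ⌊|x| / b⌋₊ = k} = {x : ℝ | b * k ≤ |x|} \ {x : ℝ | b * (k + 1) ≤ |x|} := by
    ext x
    have h0 : 0 ≤ |x| / b := by positivity
    simp only [Set.mem_ofPred_eq, Set.mem_sdiff, not_le]
    rw [Nat.floor_eq_iff h0, le_div_iff₀ hb, div_lt_iff₀ hb, mul_comm (k : ℝ) b,
      mul_comm ((k : ℝ) + 1) b]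
  have hsub : {x : ℝ | b * (k + 1) ≤ |x|} ⊆ {x : ℝ | b * k ≤ |x|} := by
    intro x hx
    have h2 : b * (k + 1) ≤ |x| := hx
    show b * k ≤ |x|
    nlinarith
  rw [hset, measureReal_sdiff hsub (meas_abs _), h1.2.1 _ (by positivity), h1.2.1 _ (by positivity)]
  rw [sub_mul, one_mul, ← Real.exp_add]
  congr 2
  ring

lemma meas_floor (b : ℝ) (k : ℕ) : MeasurableSet {x : ℝ | ⌊|x| / b⌋₊ = k} := by
  have h : Measurable fun x : ℝ => ⌊|x| / b⌋₊ :=
    Nat.measurable_floor.comp (continuous_abs.measurable.div_const b)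
  exact h (measurableSet_singleton k)

/-- the vector of the integer parts -/
noncomputable def Gv (d : ℕ) (σ : ℝ) (ω : ℕ → ℝ) (i : Fin d) : ℕ :=
  ⌊|ω ((i : ℕ) + 1)| / (2 * σ * (((i : ℕ) + 1 : ℕ) : ℝ))⌋₊

lemma prod_Icc_fin (d : ℕ) (h : ℕ → ℝ) : ∏ j ∈ Finset.Icc 1 d, h j = ∏ i : Fin d, h ((i : ℕ) + 1) := by
  rw [← Finset.prod_range (fun j => h (j + 1)), Finset.range_eq_Ico,
    Finset.prod_Ico_add' h 0 d 1]
  rfl

lemma sum_Icc_fin (d : ℕ) (h : ℕ → ℤ) : ∑ j ∈ Finset.Icc 1 d, h j = ∑ i : Fin d, h ((i : ℕ) + 1) := by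
  rw [← Finset.sum_range (fun j => h (j + 1)), Finset.range_eq_Ico,
    Finset.sum_Ico_add' h 0 d 1]
  rfl

/-- the law of the vector -/
lemma law (h1 : S_L3) (d : ℕ) (σ : ℝ) (hσ : 0 < σ) (γ : Fin d → ℕ) :
    PP.real (Gv d σ ⁻¹' {γ}) = ∏ i : Fin d, ((1 - Real.exp (-(2 * σ * (((i : ℕ) + 1 : ℕ) : ℝ)))) *
      Real.exp (-(2 * σ * (((i : ℕ) + 1 : ℕ) : ℝ) * (γ i)))) := by
  classical
  obtain ⟨g, hg⟩ : ∃ g : ℕ → ℕ, ∀ i : Fin d, g ((i : ℕ) + 1) = γ i := by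
    refine ⟨fun j => if h : j - 1 < d then γ ⟨j - 1, h⟩ else 0, fun i => ?_⟩
    have h2 : (i : ℕ) + 1 - 1 < d := by
      rw [Nat.add_sub_cancel]
      exact i.2
    show (if h : (i : ℕ) + 1 - 1 < d then γ ⟨(i : ℕ) + 1 - 1, h⟩ else 0) = γ i
    rw [dif_pos h2]
    exact congrArg γ (Fin.ext (Nat.add_sub_cancel _ _))
  have hset : Gv d σ ⁻¹' {γ} = Set.pi (↑(Finset.Icc 1 d))
      (fun j : ℕ => {x : ℝ | ⌊|x| / (2 * σ * (j : ℝ))⌋₊ = g j}) := by
    ext ω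
    constructor
    · intro h
      have h2 : Gv d σ ω = γ := h
      intro j hj
      have hj' := Finset.mem_Icc.1 (Finset.mem_coe.1 hj)
      obtain ⟨i, hi⟩ : ∃ i : Fin d, (i : ℕ) + 1 = j := ⟨⟨j - 1, by omega⟩, by
        show j - 1 + 1 = j
        omega⟩
      subst hi
      show ⌊|ω ((i : ℕ) + 1)| / (2 * σ * (((i : ℕ) + 1 : ℕ) : ℝ))⌋₊ = g ((i : ℕ) + 1)
      rw [hg]
      exact congrFun h2 i
    · intro h
      show Gv d σ ω = γ
      funext i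
      have h2 := h ((i : ℕ) + 1) (Finset.mem_coe.2 (Finset.mem_Icc.2 ⟨by omega, i.2⟩))
      have h3 : ⌊|ω ((i : ℕ) + 1)| / (2 * σ * (((i : ℕ) + 1 : ℕ) : ℝ))⌋₊ = g ((i : ℕ) + 1) := h2
      rw [hg] at h3
      exact h3
  rw [hset]
  unfold Measure.real PP
  rw [Measure.infinitePi_pi _ (fun j _ => meas_floor _ _), ENNReal.toReal_prod,
    prod_Icc_fin d (fun j => (lap {x : ℝ | ⌊|x| / (2 * σ * (j : ℝ))⌋₊ = g j}).toReal)]
  refine Finset.prod_congr rfl fun i _ => ?_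
  have h2 := geom h1 (2 * σ * (((i : ℕ) + 1 : ℕ) : ℝ)) (by positivity) (g ((i : ℕ) + 1))
  unfold Measure.real at h2
  rw [h2, hg]

lemma meas_Gv (d : ℕ) (σ : ℝ) (γ : Fin d → ℕ) : MeasurableSet (Gv d σ ⁻¹' {γ}) := by
  have h : Measurable (Gv d σ) := by
    refine measurable_pi_lambda _ fun i => ?_
    have h2 : Measurable fun ω : ℕ → ℝ => |ω ((i : ℕ) + 1)| :=
      continuous_abs.measurable.comp (measurable_pi_apply ((i : ℕ) + 1))
    exact Nat.measurable_floor.comp (h2.div_const _)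
  exact h (measurableSet_singleton γ)

theorem gp_aalaw (h1 : S_L3) : Pool.Agent.H174.GP.S_aalaw := by
  classical
  intro d σ m hσ
  have hnn : ∀ (ω : ℕ → ℝ) (j : ℕ), 0 ≤ |ω j| / (2 * σ * (j : ℝ)) := fun ω j => by positivity
  rcases lt_or_ge m 0 with hm | hm
  · unfold aa
    rw [if_neg (not_le.2 hm)]
    have he : {ω : ℕ → ℝ | (∑ j ∈ Finset.Icc 1 d, (j : ℤ) * ⌊|ω j| / (2 * σ * j)⌋) = m} = ∅ := by
      refine Set.eq_empty_iff_forall_notMem.2 fun ω h => ?_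
      have h2 : (∑ j ∈ Finset.Icc 1 d, (j : ℤ) * ⌊|ω j| / (2 * σ * j)⌋) = m := h
      have h3 : 0 ≤ ∑ j ∈ Finset.Icc 1 d, (j : ℤ) * ⌊|ω j| / (2 * σ * j)⌋ :=
        Finset.sum_nonneg fun j _ => mul_nonneg (Int.natCast_nonneg j) (Int.floor_nonneg.2 (hnn ω j))
      omega
    rw [he, measureReal_empty]
  · obtain ⟨M, rfl⟩ := Int.eq_ofNat_of_zero_le hm
    -- the finite set of the vectors
    obtain ⟨Γ, hΓ⟩ : ∃ Γ : Finset (Fin d → ℕ), ∀ γ : Fin d → ℕ,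
        γ ∈ Γ ↔ ∑ i : Fin d, ((i : ℕ) + 1) * γ i = M := by
      have hfin : {γ : Fin d → ℕ | ∑ i : Fin d, ((i : ℕ) + 1) * γ i = M}.Finite := by
        refine Set.Finite.subset (Set.Finite.pi (fun _ : Fin d => Set.finite_Iic M)) ?_
        intro γ hγ i _
        have h2 : ∑ i : Fin d, ((i : ℕ) + 1) * γ i = M := hγ
        have h3 : ((i : ℕ) + 1) * γ i ≤ M := by
          rw [← h2]
          exact Finset.single_le_sum (f := fun i : Fin d => ((i : ℕ) + 1) * γ i)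
            (fun _ _ => Nat.zero_le _) (Finset.mem_univ i)
        show γ i ≤ M
        nlinarith [Nat.zero_le (γ i), Nat.zero_le (i : ℕ)]
      refine ⟨hfin.toFinset, fun γ => ?_⟩
      rw [Set.Finite.mem_toFinset]
      rfl
    have hNd : Nd d M = Γ.card := by
      unfold Nd
      rw [← Set.ncard_coe_finset]
      congr 1
      ext γ
      rw [Finset.mem_coe, hΓ]
      rfl
    have hset : {ω : ℕ → ℝ | (∑ j ∈ Finset.Icc 1 d, (j : ℤ) * ⌊|ω j| / (2 * σ * j)⌋) = (M : ℤ)} =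
        Gv d σ ⁻¹' (Γ : Set (Fin d → ℕ)) := by
      ext ω
      rw [Set.mem_preimage, Finset.mem_coe, hΓ]
      show (∑ j ∈ Finset.Icc 1 d, (j : ℤ) * ⌊|ω j| / (2 * σ * j)⌋) = (M : ℤ) ↔ _
      rw [sum_Icc_fin d (fun j => (j : ℤ) * ⌊|ω j| / (2 * σ * j)⌋)]
      have h2 : ∀ i : Fin d, ((((i : ℕ) + 1 : ℕ) : ℤ)) *
          ⌊|ω ((i : ℕ) + 1)| / (2 * σ * (((i : ℕ) + 1 : ℕ) : ℝ))⌋ =
          ((((i : ℕ) + 1) * Gv d σ ω i : ℕ) : ℤ) := by
        intro i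
        rw [Nat.cast_mul, ← Int.natCast_floor_eq_floor (hnn ω _)]
        rfl
      simp only [h2]
      rw [← Nat.cast_sum]
      exact Int.natCast_inj
    rw [hset, ← sum_measureReal_preimage_singleton Γ (fun γ _ => meas_Gv d σ γ)]
    have hval : ∀ γ ∈ Γ, PP.real (Gv d σ ⁻¹' {γ}) = Real.exp (-(2 * σ * M)) *
        ∏ j ∈ Finset.Icc 1 d, (1 - Real.exp (-(2 * σ * j))) := by
      intro γ hγ
      rw [law h1 d σ hσ γ, Finset.prod_mul_distrib, mul_comm,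
        prod_Icc_fin d (fun j => 1 - Real.exp (-(2 * σ * (j : ℝ))))]
      congr 1
      rw [← Real.exp_sum]
      congr 1
      have h2 := (hΓ γ).1 hγ
      have h3 : (M : ℝ) = ∑ i : Fin d, (((i : ℕ) + 1 : ℕ) : ℝ) * (γ i : ℝ) := by
        rw [← h2]
        push_cast
        rfl
      rw [h3, Finset.mul_sum, ← Finset.sum_neg_distrib]
      refine Finset.sum_congr rfl fun i _ => ?_
      ring
    rw [Finset.sum_congr rfl hval, Finset.sum_const, nsmul_eq_mul]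
    unfold aa
    rw [if_pos hm]
    have h4 : ((M : ℤ)).toNat = M := Int.toNat_natCast M
    have h5 : (((M : ℤ)) : ℝ) = (M : ℝ) := Int.cast_natCast M
    rw [h4, h5, hNd, mul_assoc]

end Pool.Agent.H922.GP174
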