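import Pool.Agent.H174.GP.StD
import Pool.Agent.H234.GP174.mgf
import Pool.Agent.H828.GP174.acheb

/-!
# Moment generating function of the geometric variables
-/

set_option autoImplicit false

open MeasureTheory ProbabilityTheory Finset

namespace Pool.Agent.H922.GP174

open Pool.Agent.H174.GP

theorem gp_mgfg (h1 : S_L1) (h2 : S_L3) : Pool.Agent.H174.GP.S_mgfg := by
  intro s2 hs2
  set C : ℝ := ∫ x, (|x| + 1) ^ 2 * Real.exp ((|x| + 1) / 4) ∂lap with hC
  have hC0 : 0 ≤ C := integral_nonneg fun x => by positivity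
  refine ⟨C + 1, by linarith, ?_⟩
  intro a θ ha has hθ
  have hfl : ∀ x : ℝ, ((⌊|x| / a⌋₊ : ℕ) : ℝ) = ((⌊|x| / a⌋ : ℤ) : ℝ) := by
    intro x
    have h0 : 0 ≤ |x| / a := by positivity
    have h3 : ((⌊|x| / a⌋₊ : ℤ)) = ⌊|x| / a⌋ := Int.natCast_floor_eq_floor h0
    exact_mod_cast h3
  have hm : Measurable (fun x : ℝ => ((⌊|x| / a⌋₊ : ℕ) : ℝ)) := by
    have h3 : Measurable (fun x : ℝ => (⌊|x| / a⌋₊ : ℕ)) :=
      Nat.measurable_floor.comp (measurable_id.abs.div_const _)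
    have h4 : Measurable (fun z : ℕ => (z : ℝ)) := measurable_from_top
    exact h4.comp h3
  have hr1 : Real.exp (-a) < 1 := by
    rw [Real.exp_lt_one_iff]
    linarith
  have hmean0 : 0 ≤ Real.exp (-a) / (1 - Real.exp (-a)) :=
    div_nonneg (Real.exp_pos _).le (by linarith)
  have hmean1 : Real.exp (-a) / (1 - Real.exp (-a)) ≤ 1 / a := by
    rw [div_le_div_iff₀ (by linarith) ha]
    have g1 : a + 1 ≤ Real.exp a := Real.add_one_le_exp a
    have g2 : Real.exp (-a) * Real.exp a = 1 := by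
      rw [← Real.exp_add]
      simp
    have g3 : Real.exp (-a) * (a + 1) ≤ 1 :=
      (mul_le_mul_of_nonneg_left g1 (Real.exp_pos _).le).trans g2.le
    linarith
  have hb0 : ∀ x : ℝ, 0 ≤ ((⌊|x| / a⌋₊ : ℕ) : ℝ) := fun x => Nat.cast_nonneg _
  have hb1 : ∀ x : ℝ, ((⌊|x| / a⌋₊ : ℕ) : ℝ) ≤ |x| / a := fun x => Nat.floor_le (by positivity)
  have hb : ∀ x : ℝ, |((⌊|x| / a⌋₊ : ℕ) : ℝ) - Real.exp (-a) / (1 - Real.exp (-a))| ≤
      (|x| + 1) / a := by
    intro x
    have g1 := hb0 x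
    have g2 := hb1 x
    have g3 : 0 ≤ |x| / a := by positivity
    have g4 : 0 ≤ 1 / a := by positivity
    rw [add_div, abs_le]
    constructor <;> linarith
  have hI : Integrable (fun x : ℝ => ((⌊|x| / a⌋₊ : ℕ) : ℝ)) lap := by
    refine (Pool.Agent.H234.GP174.int_lin h1 0 a).mono' hm.aestronglyMeasurable
      (Filter.Eventually.of_forall fun x => ?_)
    rw [Real.norm_eq_abs, abs_of_nonneg (hb0 x), add_zero]
    exact hb1 x
  have h0 : (∫ x, (((⌊|x| / a⌋₊ : ℕ) : ℝ) - Real.exp (-a) / (1 - Real.exp (-a))) ∂lap) = 0 := by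
    rw [integral_sub hI (integrable_const _)]
    have g1 : (∫ x, ((⌊|x| / a⌋₊ : ℕ) : ℝ) ∂lap) = Real.exp (-a) / (1 - Real.exp (-a)) := by
      rw [← Pool.Agent.H828.GP174.floor_int h2 a ha]
      exact integral_congr_ae (Filter.Eventually.of_forall hfl)
    rw [g1]
    simp
  obtain ⟨g1, g2⟩ := Pool.Agent.H234.GP174.gen h1
    (fun x : ℝ => ((⌊|x| / a⌋₊ : ℕ) : ℝ) - Real.exp (-a) / (1 - Real.exp (-a)))
    (hm.sub_const _) 1 a θ zero_le_one ha hb h0 hθ
  refine ⟨g1, g2.trans ?_⟩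
  refine Real.exp_le_exp.2 ?_
  refine div_le_div_of_nonneg_right ?_ (sq_nonneg _)
  exact mul_le_mul_of_nonneg_right (by linarith) (sq_nonneg _)

end Pool.Agent.H922.GP174
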